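import Pool.Agent.W345.GK.Gau

set_option autoImplicit false

open Polynomial Finset

namespace Pool.Agent.W766.GK
open Pool.Agent.W345.GK

theorem iF_C {F : Type} [Field F] (q : ℕ) (c : F) :
    iF q (C c : F[X]) = (HahnSeries.C c : LS F) := by
  unfold iF
  rw [aeval_C]
  rw [HahnSeries.algebraMap_apply']
  exact HahnSeries.ofPowerSeries_C c

theorem UU_coeff {F : Type} [Field F] (q : ℕ) (f : F[X]) (i : ℕ)
    (h : (UU q f).coeff i ≠ 0) : q * i + (q - 1) ≤ f.natDegree := by
  apply le_natDegree_of_ne_zero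
  intro h0
  apply h
  unfold UU
  rw [finsetSum_coeff]
  refine Finset.sum_eq_zero fun j _ => ?_
  rw [coeff_monomial]
  split_ifs with hj
  · rw [hj, h0]
  · rfl

/-- a polynomial fixed by `g ↦ U_q (g R)` has degree at most `m` -/
theorem natDegree_fixed {F : Type} [Field F] (q m : ℕ) (hq : 2 ≤ q) (g R : F[X])
    (hR : R.natDegree = (q - 1) * (m + 1)) (h : UU q (g * R) = g) : g.natDegree ≤ m := by
  by_cases hg : g = 0
  · rw [hg, natDegree_zero]; exact Nat.zero_le m
  · have h1 : (UU q (g * R)).coeff g.natDegree ≠ 0 := by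
      rw [h]
      exact leadingCoeff_ne_zero.2 hg
    have h2 := UU_coeff q _ _ h1
    have h3 : (g * R).natDegree ≤ g.natDegree + R.natDegree := natDegree_mul_le
    rw [hR] at h3
    obtain ⟨p, rfl⟩ : ∃ p, q = p + 2 := ⟨q - 2, by omega⟩
    have h4 : p + 2 - 1 = p + 1 := by omega
    rw [h4] at h2 h3
    have h5 : (p + 2) * g.natDegree + (p + 1) ≤ g.natDegree + (p + 1) * (m + 1) := h2.trans h3
    have h6 : (p + 1) * g.natDegree ≤ (p + 1) * m := by nlinarith
    exact Nat.le_of_mul_le_mul_left h6 (Nat.succ_pos p)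

theorem coeff_C_mul {F : Type} [Field F] (c : F) (f : LS F) (j : ℤ) :
    ((HahnSeries.C c : LS F) * f).coeff j = c * f.coeff j := by
  rw [HahnSeries.C_mul_eq_smul, HahnSeries.coeff_smul, smul_eq_mul]

theorem Fixd_zero {F : Type} [Field F] (q : ℕ) : Fixd q (0 : LS F) := by
  intro j
  simp

theorem Fixd_C_mul {F : Type} [Field F] (q : ℕ) (c : F) (f : LS F) (h : Fixd q f) :
    Fixd q ((HahnSeries.C c : LS F) * f) := by
  intro j
  rw [coeff_C_mul, coeff_C_mul, ← h j]

theorem Fixd_add {F : Type} [Field F] (q : ℕ) (f g : LS F) (hf : Fixd q f) (hg : Fixd q g) :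
    Fixd q (f + g) := by
  intro j
  rw [HahnSeries.coeff_add, HahnSeries.coeff_add, ← hf j, ← hg j]

theorem Fixd_neg {F : Type} [Field F] (q : ℕ) (f : LS F) (hf : Fixd q f) : Fixd q (-f) := by
  intro j
  rw [HahnSeries.coeff_neg, HahnSeries.coeff_neg, ← hf j]

theorem Fixd_sum {F ι : Type} [Field F] (q : ℕ) (s : Finset ι) (f : ι → LS F)
    (h : ∀ i ∈ s, Fixd q (f i)) : Fixd q (∑ i ∈ s, f i) := by
  classical
  induction s using Finset.induction_on with
  | empty => rw [Finset.sum_empty]; exact Fixd_zero q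
  | insert a s ha ih =>
    rw [Finset.sum_insert ha]
    exact Fixd_add q _ _ (h a (Finset.mem_insert_self a s))
      (ih fun i hi => h i (Finset.mem_insert_of_mem hi))

/-- `pol c` has degree less than `N` and vanishes only for `c = 0` -/
theorem pol_coeff {k : Type} [Field k] {N : ℕ} (c : Fin N → k) (i : Fin N) :
    (pol c).coeff (i : ℕ) = c i := by
  unfold pol
  rw [finsetSum_coeff, Finset.sum_eq_single i]
  · rw [coeff_C_mul_X_pow, if_pos rfl]
  · intro j _ hj
    rw [coeff_C_mul_X_pow, if_neg]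
    intro h
    exact hj (Fin.ext h.symm)
  · intro h
    exact absurd (Finset.mem_univ i) h

theorem pol_natDegree {k : Type} [Field k] {N : ℕ} (hN : 0 < N) (c : Fin N → k) :
    (pol c).natDegree < N := by
  by_cases h0 : pol c = 0
  · rw [h0, natDegree_zero]; exact hN
  refine (natDegree_lt_iff_degree_lt h0).2 ?_
  unfold pol
  refine (degree_sum_le _ _).trans_lt ?_
  refine (Finset.sup_lt_iff ?_).2 ?_
  · exact WithBot.bot_lt_coe N
  · intro i _
    refine (degree_C_mul_X_pow_le _ _).trans_lt ?_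
    exact_mod_cast i.2

theorem not_dvd_pol {k : Type} [Field k] (P : k[X]) (hP : 0 < P.natDegree)
    (c : Fin P.natDegree → k) (hc : c ≠ 0) : ¬ P ∣ pol c := by
  intro hd
  apply hc
  have h0 : pol c = 0 := by
    by_contra hne
    have := natDegree_le_of_dvd hd hne
    exact absurd this (not_le.2 (pol_natDegree hP c))
  funext i
  rw [← pol_coeff c i, h0]
  simp

theorem pol_zero {k : Type} [Field k] {N : ℕ} : pol (0 : Fin N → k) = 0 := by
  unfold pol
  simp

theorem m1 : S_I1 → S_LV → S_EXP → S_INF → S_C3 → S_RHO → S_K1 → S_GS → S_FX → S_DL → S_K4 →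
    S_M1 := by
  intro _ hLV hEXP hINF hC3 hRHO hK1 hGS hFX hDL hK4
  intro k F _ _ _ _ P θ κ hPm hPi hθ hκ0 hκ1 hκ2 hbet
  have hd : 0 < P.natDegree := hPi.natDegree_pos
  have hq : 2 ≤ Fintype.card k := Fintype.one_lt_card
  obtain ⟨Lam, hLam⟩ := hEXP k F P hPm hd
  obtain ⟨hρP, hρ0, hρu, hρmon, hρsum, -, m, hm, hRdeg, hRmon⟩ :=
    hRHO k F P θ κ hPm hPi hθ hκ0 hκ1 hκ2
  obtain ⟨g, hg⟩ := hK1 k F P θ κ hPm hPi hθ hκ0 hκ1 hκ2 (xi P)
  have hroot : ∀ i < P.natDegree, eval (θ ^ Fintype.card k ^ i) g = 0 := fun i hi =>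
    hK4 k F P θ κ g hPm hPi hθ hκ0 hκ1 hκ2 hg i hi (hbet i hi)
  obtain ⟨hISGS, hLamsum, -, -⟩ := hGS k F P θ Lam hPm hPi hθ hLam
  have e1 := @hg (LS F) _ (algLS F (Fintype.card k)) (gs P θ Lam) hISGS
  -- the value of the universal polynomial at a torsion point
  set Aev : LS F → LS F := fun y =>
    @Polynomial.aeval (F[X]) (LS F) _ _ (algLS F (Fintype.card k)) y (xi P : (F[X])[X]) with hAev
  have e2 : - ∑ a : Fin P.natDegree → k,
      (HahnSeries.C (rho P.natDegree θ κ (pol a)) : LS F) * Aev (Lam (pol a)) =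
      iF (Fintype.card k) g * GG P θ Lam κ := by
    have hl : ∀ a : Fin P.natDegree → k,
        (HahnSeries.C (rho P.natDegree θ κ (pol a)) : LS F) * Aev (Lam (pol a)) =
        (@algebraMap F[X] (LS F) _ _ (algLS F (Fintype.card k)) (C (rho P.natDegree θ κ (pol a)))) *
        @Polynomial.aeval (F[X]) (LS F) _ _ (algLS F (Fintype.card k))
          (∑ j ∈ range P.natDegree,
            (@algebraMap F[X] (LS F) _ _ (algLS F (Fintype.card k))
              (C (aeval (θ ^ Fintype.card k ^ j) (pol a)))) * gs P θ Lam j) (xi P : (F[X])[X]) := by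
      intro a
      have h1 : ∀ c : F, @algebraMap F[X] (LS F) _ _ (algLS F (Fintype.card k)) (C c) =
          (HahnSeries.C c : LS F) := fun c => iF_C (Fintype.card k) c
      simp only [h1]
      rw [← hLamsum (pol a)]
    rw [Finset.sum_congr rfl fun a _ => hl a]
    exact e1
  -- logarithmic derivatives
  have hdl : ∀ a : Fin P.natDegree → k,
      (HahnSeries.C (rho P.natDegree θ κ (pol a)) : LS F) * dl (Fintype.card k) (Lam (pol a)) =
      -((HahnSeries.C (rho P.natDegree θ κ (pol a)) : LS F) * Aev (Lam (pol a))) / iA P := by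
    intro a
    by_cases ha : a = 0
    · rw [ha, pol_zero, hρ0]
      simp
    · rw [(hDL k F P Lam hPm hPi hLam (pol a) (not_dvd_pol P hd a ha)).1]
      simp only [hAev]
      ring
  have hx : - ∑ a : Fin P.natDegree → k,
      (HahnSeries.C (rho P.natDegree θ κ (pol a)) : LS F) * dl (Fintype.card k) (Lam (pol a)) =
      iF (Fintype.card k) (-g) / iA P * GG P θ Lam κ := by
    rw [Finset.sum_congr rfl fun a _ => hdl a, ← Finset.sum_div, Finset.sum_neg_distrib, e2,
      map_neg]
    ring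
  have hxF : Fixd (Fintype.card k) (iF (Fintype.card k) (-g) / iA P * GG P θ Lam κ) := by
    rw [← hx]
    apply Fixd_neg
    apply Fixd_sum
    intro a _
    by_cases ha : a = 0
    · rw [ha, pol_zero, hρ0]
      simp only [map_zero, zero_mul]
      exact Fixd_zero _
    · apply Fixd_C_mul
      exact (hDL k F P Lam hPm hPi hLam (pol a) (not_dvd_pol P hd a ha)).2
  have hU := (hFX k F P θ Lam κ hPm hPi hθ hLam hκ0 hκ1 hκ2 (-g)).1 hxF
  have hdeg : (-g).natDegree ≤ m := natDegree_fixed _ m hq _ _ hRdeg hU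
  rw [natDegree_neg] at hdeg
  have hinj := (hC3 k F P θ hPm hPi hθ).2.1
  have hg0 : g = 0 := by
    refine eq_zero_of_natDegree_lt_card_of_eval_eq_zero g
      (f := fun i : Fin P.natDegree => θ ^ Fintype.card k ^ (i : ℕ)) ?_ ?_ ?_
    · intro i j hij
      exact Fin.ext (hinj i i.2 j j.2 hij)
    · intro i
      exact hroot i i.2
    · rw [Fintype.card_fin]
      exact lt_of_le_of_lt hdeg hm
  have hx0 : ∑ a : Fin P.natDegree → k,
      (HahnSeries.C (rho P.natDegree θ κ (pol a)) : LS F) * dl (Fintype.card k) (Lam (pol a))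
        = 0 := by
    rw [hg0, neg_zero, map_zero, zero_div, zero_mul] at hx
    exact neg_eq_zero.1 hx
  have hall := hINF k F P Lam (rho P.natDegree θ κ) (RR (Fintype.card k) P.natDegree θ κ) hPm hd
    hLam hρP hρ0 hρu hρmon hρsum hx0
  obtain ⟨h1, h2, -, -, f1, f2, hli⟩ := hLV k F (RR (Fintype.card k) P.natDegree θ κ) m hRmon hRdeg
    (fun l _ => hall l)
  exact ⟨h1, h2, f1, f2, hli⟩

end Pool.Agent.W766.GK
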